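import Pool.Agent.Helper10.QRH.StA

/-! Project QRH, module A5: the duality inequality with the Lorentz weight. -/

set_option autoImplicit false
open Filter Topology MeasureTheory

namespace Pool.Agent.Helper52.QRH

open Pool.Agent.Helper10.QRH

open scoped FourierTransform

lemma integral_split {f : ℝ → ℂ} (h1 : IntegrableOn f (Set.Iic 0)) (h2 : IntegrableOn f (Set.Ioi 0)) :
    ∫ x, f x = (∫ x in Set.Iic 0, f x) + ∫ x in Set.Ioi 0, f x := by
  rw [← setIntegral_union _ measurableSet_Ioi h1 h2, Set.Iic_union_Ioi, setIntegral_univ]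
  exact Set.Iic_disjoint_Ioi le_rfl

lemma expabs_integrable : Integrable (fun x : ℝ => Complex.exp ((-|x| : ℝ) : ℂ)) := by
  have h1 : IntegrableOn (fun x : ℝ => Complex.exp ((-|x| : ℝ) : ℂ)) (Set.Iic 0) := by
    have := integrableOn_exp_mul_complex_Iic (a := 1) (by simp) 0
    refine this.congr_fun (fun x hx => ?_) measurableSet_Iic
    simp only [Set.mem_Iic] at hx
    simp [abs_of_nonpos hx]
  have h2 : IntegrableOn (fun x : ℝ => Complex.exp ((-|x| : ℝ) : ℂ)) (Set.Ioi 0) := by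
    have := integrableOn_exp_mul_complex_Ioi (a := -1) (by simp) 0
    refine this.congr_fun (fun x hx => ?_) measurableSet_Ioi
    simp only [Set.mem_Ioi] at hx
    simp [abs_of_pos hx]
  have := h1.union h2
  rwa [Set.Iic_union_Ioi, integrableOn_univ] at this

lemma fourier_expabs (w : ℝ) :
    𝓕 (fun x : ℝ => Complex.exp ((-|x| : ℝ) : ℂ)) w = 2 / (1 + (2 * Real.pi * w) ^ 2) := by
  rw [Real.fourier_real_eq_integral_exp_smul]
  set c : ℂ := (2 * Real.pi * w : ℝ) * Complex.I with hc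
  have hcre : c.re = 0 := by simp [hc]
  have e1 : Set.EqOn (fun x : ℝ => Complex.exp ((1 - c) * x))
      (fun v : ℝ => Complex.exp (↑(-2 * Real.pi * v * w) * Complex.I) • Complex.exp ((-|v| : ℝ) : ℂ))
      (Set.Iic 0) := by
    intro x hx
    simp only [Set.mem_Iic] at hx
    simp only [smul_eq_mul]
    rw [← Complex.exp_add, abs_of_nonpos hx]
    congr 1
    rw [hc]; push_cast; ring
  have e2 : Set.EqOn (fun x : ℝ => Complex.exp ((-1 - c) * x))
      (fun v : ℝ => Complex.exp (↑(-2 * Real.pi * v * w) * Complex.I) • Complex.exp ((-|v| : ℝ) : ℂ))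
      (Set.Ioi 0) := by
    intro x hx
    simp only [Set.mem_Ioi] at hx
    simp only [smul_eq_mul]
    rw [← Complex.exp_add, abs_of_pos hx]
    congr 1
    rw [hc]; push_cast; ring
  have r1 : 0 < (1 - c).re := by simp [hcre]
  have r2 : (-1 - c).re < 0 := by simp [hcre]
  rw [integral_split ((integrableOn_exp_mul_complex_Iic r1 0).congr_fun e1 measurableSet_Iic)
    ((integrableOn_exp_mul_complex_Ioi r2 0).congr_fun e2 measurableSet_Ioi),
    ← setIntegral_congr_fun measurableSet_Iic e1, ← setIntegral_congr_fun measurableSet_Ioi e2,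
    integral_exp_mul_complex_Iic r1, integral_exp_mul_complex_Ioi r2]
  have n1 : (1 - c) ≠ 0 := fun h => by rw [h] at r1; simp at r1
  have n2 : (-1 - c) ≠ 0 := fun h => by rw [h] at r2; simp at r2
  have n3 : (1 + (2 * (Real.pi : ℂ) * w) ^ 2) = -((1 - c) * (-1 - c)) := by
    have hI : Complex.I ^ 2 = -1 := Complex.I_sq
    rw [hc]; push_cast
    linear_combination ((2 * (Real.pi : ℂ) * w) ^ 2) * hI
  rw [n3]
  simp only [Complex.ofReal_zero, mul_zero, Complex.exp_zero]
  field_simp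
  ring

lemma lorentz_integrable {lam : ℝ} (hl : 0 < lam) : Integrable (fun t : ℝ => 1 / (1 + (lam * t) ^ 2)) := by
  have := integrable_inv_one_add_sq.comp_mul_left' hl.ne'
  simpa [one_div] using this

lemma fourier_lorentz {lam : ℝ} (hl : 0 < lam) (v : ℝ) :
    ∫ t : ℝ, (1 / (1 + (lam * t) ^ 2) : ℝ) * Complex.exp (t * v * Complex.I) =
      Real.pi / lam * Complex.exp ((-(|v| / lam) : ℝ) : ℂ) := by
  have hint : Integrable (𝓕 (fun x : ℝ => Complex.exp ((-|x| : ℝ) : ℂ))) := by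
    have := (integrable_inv_one_add_sq.comp_mul_left' (R := 2 * Real.pi) (by positivity)).ofReal (𝕜 := ℂ)
    refine (this.const_mul 2).congr (Filter.Eventually.of_forall fun w => ?_)
    simp only [fourier_expabs]
    push_cast
    rw [div_eq_mul_inv]
    rfl
  have inv := Continuous.fourierInv_fourier_eq (f := fun x : ℝ => Complex.exp ((-|x| : ℝ) : ℂ))
    (by fun_prop) expabs_integrable hint
  have inv' := congrFun inv (v / lam)
  rw [Real.fourierInv_eq'] at inv'
  simp only [fourier_expabs] at inv'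
  have key := Measure.integral_comp_mul_left
    (fun t : ℝ => ((1 / (1 + (lam * t) ^ 2) : ℝ) : ℂ) * Complex.exp (t * v * Complex.I)) (2 * Real.pi / lam)
  have hp : (0 : ℝ) < 2 * Real.pi / lam := by positivity
  have e : ∀ x : ℝ, ((1 / (1 + (lam * (2 * Real.pi / lam * x)) ^ 2) : ℝ) : ℂ) *
      Complex.exp (((2 * Real.pi / lam * x : ℝ) : ℂ) * v * Complex.I) =
      (1 / 2 : ℂ) * (Complex.exp (((2 * Real.pi * inner ℝ x (v / lam) : ℝ) : ℂ) * Complex.I) •
        (2 / (1 + (2 * (Real.pi : ℂ) * x) ^ 2))) := by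
    intro x
    have hx : lam * (2 * Real.pi / lam * x) = 2 * Real.pi * x := by field_simp
    rw [hx, smul_eq_mul]
    have hi : (((2 * Real.pi / lam * x : ℝ) : ℂ) * v * Complex.I) =
        (((2 * Real.pi * inner ℝ x (v / lam) : ℝ) : ℂ) * Complex.I) := by
      simp only [RCLike.inner_apply, conj_trivial]
      push_cast
      ring
    rw [hi]
    push_cast
    ring
  simp only [e] at key
  rw [integral_const_mul, inv', abs_of_pos (inv_pos.2 hp)] at key
  have hlc : (lam : ℂ) ≠ 0 := by exact_mod_cast hl.ne'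
  have hpc : (Real.pi : ℂ) ≠ 0 := by exact_mod_cast Real.pi_pos.ne'
  have habs : |v / lam| = |v| / lam := by rw [abs_div, abs_of_pos hl]
  rw [habs] at key
  rw [Complex.real_smul] at key
  have : (((2 * Real.pi / lam)⁻¹ : ℝ) : ℂ) = (lam : ℂ) / (2 * Real.pi) := by
    push_cast
    rw [inv_div]
  rw [this] at key
  field_simp at key
  field_simp
  linear_combination -key

lemma norm_fourier_lorentz {lam : ℝ} (hl : 0 < lam) (v : ℝ) :
    ‖∫ t : ℝ, ((1 / (1 + (lam * t) ^ 2) : ℝ) : ℂ) * Complex.exp (t * v * Complex.I)‖ =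
      Real.pi / lam * Real.exp (-(|v| / lam)) := by
  rw [fourier_lorentz hl v, norm_mul, Complex.norm_exp_ofReal, norm_div, Complex.norm_real,
    Complex.norm_real, Real.norm_of_nonneg Real.pi_pos.le, Real.norm_of_nonneg hl.le]

/-- the constant in the packing bound -/
noncomputable def C0 : ℝ := Real.exp 1 * ∑' n : ℤ, Real.exp (-|(n : ℝ)|)

lemma summable_exp_int : Summable (fun n : ℤ => Real.exp (-|(n : ℝ)|)) := by
  have h : Summable (fun n : ℕ => Real.exp (-(n : ℝ))) := by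
    exact Real.summable_exp_neg_nat
  refine Summable.of_nat_of_neg ?_ ?_
  · simpa using h
  · simpa using h

lemma C0_pos : 0 < C0 := by
  unfold C0
  have : 0 < ∑' n : ℤ, Real.exp (-|(n : ℝ)|) := summable_exp_int.tsum_pos (fun _ => (Real.exp_pos _).le) 0 (Real.exp_pos _)
  positivity

lemma packing {lam : ℝ} (hl : 0 < lam) (R : Finset ℝ)
    (hR : ∀ u ∈ R, ∀ u' ∈ R, u ≠ u' → lam ≤ |u - u'|) (u : ℝ) :
    ∑ u' ∈ R, Real.exp (-(|u - u'| / lam)) ≤ C0 := by
  have hinj : Set.InjOn (fun u' : ℝ => ⌊(u - u') / lam⌋) (R : Set ℝ) := by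
    intro a ha b hb hab
    by_contra hne
    have h1 := hR a ha b hb hne
    have h2 := Int.abs_sub_lt_one_of_floor_eq_floor hab
    have h3 : (u - a) / lam - (u - b) / lam = (b - a) / lam := by ring
    rw [h3, abs_div, abs_of_pos hl, div_lt_one hl, abs_sub_comm] at h2
    linarith
  calc ∑ u' ∈ R, Real.exp (-(|u - u'| / lam))
      ≤ ∑ u' ∈ R, Real.exp 1 * Real.exp (-|((⌊(u - u') / lam⌋ : ℤ) : ℝ)|) := by
        refine Finset.sum_le_sum fun u' _ => ?_
        rw [← Real.exp_add]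
        apply Real.exp_le_exp.2
        have h1 := Int.floor_le ((u - u') / lam)
        have h2 := Int.lt_floor_add_one ((u - u') / lam)
        have h3 : |u - u'| / lam = |(u - u') / lam| := by rw [abs_div, abs_of_pos hl]
        rw [h3]
        have h4 : |((⌊(u - u') / lam⌋ : ℤ) : ℝ)| ≤ |(u - u') / lam| + 1 := by
          rw [abs_le]
          constructor
          · have := neg_abs_le ((u - u') / lam)
            linarith
          · have := le_abs_self ((u - u') / lam)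
            linarith
        linarith
    _ = Real.exp 1 * ∑ n ∈ R.image (fun u' : ℝ => ⌊(u - u') / lam⌋), Real.exp (-|((n : ℤ) : ℝ)|) := by
        rw [Finset.sum_image hinj, Finset.mul_sum]
    _ ≤ C0 := by
        unfold C0
        refine mul_le_mul_of_nonneg_left ?_ (Real.exp_pos 1).le
        exact summable_exp_int.sum_le_tsum _ (fun _ _ => (Real.exp_pos _).le)

lemma log_bound : ∃ C : ℝ, 0 < C ∧ ∀ x : ℝ, 1 + Real.log (2 + |x|) / Real.log 2 ≤ C * (1 + x ^ 2) ^ (1/8 : ℝ) := by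
  refine ⟨1 + 8 * 3 / Real.log 2, by positivity, fun x => ?_⟩
  have hl2 : 0 < Real.log 2 := Real.log_pos (by norm_num)
  have h1 : (1 : ℝ) ≤ (1 + x ^ 2) ^ (1/8 : ℝ) := Real.one_le_rpow (by nlinarith [sq_nonneg x]) (by norm_num)
  have h2 : Real.log (2 + |x|) ≤ 8 * 3 * (1 + x ^ 2) ^ (1/8 : ℝ) := by
    have h3 : 2 + |x| ≤ 3 * (1 + x ^ 2) := by
      have := sq_nonneg (|x| - 1)
      have h4 : |x| ^ 2 = x ^ 2 := sq_abs x
      nlinarith [abs_nonneg x]
    have h5 := Real.log_le_rpow_div (x := 2 + |x|) (by positivity) (ε := 1/8) (by norm_num)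
    have h6 : (2 + |x|) ^ (1/8 : ℝ) ≤ (3 * (1 + x ^ 2)) ^ (1/8 : ℝ) :=
      Real.rpow_le_rpow (by positivity) h3 (by norm_num)
    rw [Real.mul_rpow (by norm_num) (by positivity)] at h6
    have h7 : (3 : ℝ) ^ (1/8 : ℝ) ≤ 3 := by
      calc (3 : ℝ) ^ (1/8 : ℝ) ≤ 3 ^ (1 : ℝ) := Real.rpow_le_rpow_of_exponent_le (by norm_num) (by norm_num)
        _ = 3 := Real.rpow_one 3
    have h8 : (0 : ℝ) < (1 + x ^ 2) ^ (1/8 : ℝ) := by linarith
    nlinarith
  calc 1 + Real.log (2 + |x|) / Real.log 2 ≤ (1 + x ^ 2) ^ (1/8 : ℝ) + (8 * 3 * (1 + x ^ 2) ^ (1/8 : ℝ)) / Real.log 2 := by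
        gcongr
    _ = _ := by ring

/-- pointwise bound of the weighted square -/
lemma exists_C1 : ∃ C1 : ℝ, 0 < C1 ∧ ∀ lam : ℝ, 0 < lam → lam ≤ 1/2 →
    Integrable (fun t : ℝ => Real.log (2 + |t|) ^ 2 / (1 + (lam * t) ^ 2)) ∧
    ∫ t : ℝ, Real.log (2 + |t|) ^ 2 / (1 + (lam * t) ^ 2) ≤ C1 * Real.log (1 / lam) ^ 2 / lam := by
  obtain ⟨C, hC, hb⟩ := log_bound
  have hI : Integrable (fun x : ℝ => ((1 : ℝ) + ‖x‖ ^ 2) ^ (-(3/2 : ℝ) / 2)) :=
    integrable_rpow_neg_one_add_norm_sq (by simp; norm_num)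
  set I0 : ℝ := ∫ x : ℝ, ((1 : ℝ) + ‖x‖ ^ 2) ^ (-(3/2 : ℝ) / 2) with hI0
  have hI0n : 0 ≤ I0 := integral_nonneg fun x => by positivity
  refine ⟨C ^ 2 * (I0 + 1), by positivity, fun lam hl hl2 => ?_⟩
  have hll : Real.log 2 ≤ Real.log (1 / lam) := by
    apply Real.log_le_log (by norm_num)
    rw [le_div_iff₀ hl]; linarith
  have hl2p : 0 < Real.log 2 := Real.log_pos (by norm_num)
  have hpt : ∀ t : ℝ, Real.log (2 + |t|) ^ 2 / (1 + (lam * t) ^ 2) ≤
      (C ^ 2 * Real.log (1 / lam) ^ 2) * ((1 : ℝ) + ‖lam * t‖ ^ 2) ^ (-(3/2 : ℝ) / 2) := by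
    intro t
    have h1 : Real.log (2 + |t|) ≤ Real.log (1 / lam) * (1 + Real.log (2 + |lam * t|) / Real.log 2) := by
      have h2 : 2 + |t| ≤ (1 / lam) * (2 + |lam * t|) := by
        rw [abs_mul, abs_of_pos hl]
        have : (1 / lam) * (2 + lam * |t|) = 2 / lam + |t| := by field_simp
        rw [this]
        have : 2 ≤ 2 / lam := by rw [le_div_iff₀ hl]; linarith
        linarith
      have h3 : Real.log (2 + |t|) ≤ Real.log (1 / lam) + Real.log (2 + |lam * t|) := by
        rw [← Real.log_mul (by positivity) (by positivity)]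
        exact Real.log_le_log (by positivity) h2
      have h4 : 0 ≤ Real.log (2 + |lam * t|) := Real.log_nonneg (by linarith [abs_nonneg (lam * t)])
      have h5 : Real.log (2 + |lam * t|) ≤ Real.log (1 / lam) * (Real.log (2 + |lam * t|) / Real.log 2) := by
        rw [mul_div_assoc', le_div_iff₀ hl2p]
        nlinarith
      linarith
    have h6 := hb (lam * t)
    have h7 : Real.log (2 + |t|) ≤ Real.log (1 / lam) * (C * (1 + (lam * t) ^ 2) ^ (1/8 : ℝ)) :=
      h1.trans (mul_le_mul_of_nonneg_left h6 (by linarith))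
    have h8 : 0 ≤ Real.log (2 + |t|) := Real.log_nonneg (by linarith [abs_nonneg t])
    have hpos : (0 : ℝ) < 1 + (lam * t) ^ 2 := by positivity
    rw [div_le_iff₀ hpos]
    have h9 : (1 : ℝ) + ‖lam * t‖ ^ 2 = 1 + (lam * t) ^ 2 := by rw [Real.norm_eq_abs, sq_abs]
    rw [h9]
    calc Real.log (2 + |t|) ^ 2 ≤ (Real.log (1 / lam) * (C * (1 + (lam * t) ^ 2) ^ (1/8 : ℝ))) ^ 2 :=
          pow_le_pow_left₀ h8 h7 2
      _ = C ^ 2 * Real.log (1 / lam) ^ 2 * ((1 + (lam * t) ^ 2) ^ (1/8 : ℝ)) ^ 2 := by ring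
      _ = C ^ 2 * Real.log (1 / lam) ^ 2 * ((1 + (lam * t) ^ 2) ^ (-(3/2 : ℝ) / 2) * (1 + (lam * t) ^ 2)) := by
          congr 1
          rw [← Real.rpow_natCast, ← Real.rpow_mul hpos.le]
          nth_rewrite 3 [← Real.rpow_one (1 + (lam * t) ^ 2)]
          rw [← Real.rpow_add hpos]
          norm_num
      _ = _ := by ring
  have hI2 : Integrable (fun t : ℝ => (C ^ 2 * Real.log (1 / lam) ^ 2) *
      ((1 : ℝ) + ‖lam * t‖ ^ 2) ^ (-(3/2 : ℝ) / 2)) :=
    (hI.comp_mul_left' hl.ne').const_mul _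
  have hint : Integrable (fun t : ℝ => Real.log (2 + |t|) ^ 2 / (1 + (lam * t) ^ 2)) := by
    refine hI2.mono' ?_ (Filter.Eventually.of_forall fun t => ?_)
    · apply Measurable.aestronglyMeasurable
      fun_prop
    · rw [Real.norm_of_nonneg (by positivity)]
      exact hpt t
  refine ⟨hint, ?_⟩
  calc ∫ t : ℝ, Real.log (2 + |t|) ^ 2 / (1 + (lam * t) ^ 2)
      ≤ ∫ t : ℝ, (C ^ 2 * Real.log (1 / lam) ^ 2) * ((1 : ℝ) + ‖lam * t‖ ^ 2) ^ (-(3/2 : ℝ) / 2) :=
        integral_mono hint hI2 hpt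
    _ = (C ^ 2 * Real.log (1 / lam) ^ 2) * (lam⁻¹ * I0) := by
        rw [integral_const_mul]
        congr 1
        have := Measure.integral_comp_mul_left (fun x : ℝ => ((1 : ℝ) + ‖x‖ ^ 2) ^ (-(3/2 : ℝ) / 2)) lam
        rw [this, abs_of_pos (inv_pos.2 hl), smul_eq_mul]
    _ ≤ C ^ 2 * (I0 + 1) * Real.log (1 / lam) ^ 2 / lam := by
        have : 0 < lam⁻¹ := inv_pos.2 hl
        have h : 0 ≤ C ^ 2 * Real.log (1 / lam) ^ 2 * lam⁻¹ := by positivity
        have e : C ^ 2 * (I0 + 1) * Real.log (1 / lam) ^ 2 / lam =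
          C ^ 2 * Real.log (1 / lam) ^ 2 * lam⁻¹ * (I0 + 1) := by rw [div_eq_mul_inv]; ring
        rw [e]
        nlinarith

/-- the weighted second moment of an exponential polynomial -/
lemma second_moment {lam : ℝ} (hl : 0 < lam) (R : Finset ℝ)
    (hR : ∀ u ∈ R, ∀ u' ∈ R, u ≠ u' → lam ≤ |u - u'|) (ε : ℝ → ℂ) (hε : ∀ u, ‖ε u‖ = 1) :
    Integrable (fun t : ℝ => 1 / (1 + (lam * t) ^ 2) *
      ‖∑ u ∈ R, ε u * Complex.exp (t * u * Complex.I)‖ ^ 2) ∧
    ∫ t : ℝ, 1 / (1 + (lam * t) ^ 2) * ‖∑ u ∈ R, ε u * Complex.exp (t * u * Complex.I)‖ ^ 2 ≤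
      Real.pi / lam * R.card * C0 := by
  have hexpand : ∀ t : ℝ, ((1 / (1 + (lam * t) ^ 2) *
      ‖∑ u ∈ R, ε u * Complex.exp (t * u * Complex.I)‖ ^ 2 : ℝ) : ℂ) =
      ∑ u ∈ R, ∑ u' ∈ R, (ε u * (starRingEnd ℂ) (ε u')) *
        (((1 / (1 + (lam * t) ^ 2) : ℝ) : ℂ) * Complex.exp (t * (u - u' : ℝ) * Complex.I)) := by
    intro t
    have h1 : ((‖∑ u ∈ R, ε u * Complex.exp (t * u * Complex.I)‖ ^ 2 : ℝ) : ℂ) =
        (∑ u ∈ R, ε u * Complex.exp (t * u * Complex.I)) *
          (starRingEnd ℂ) (∑ u ∈ R, ε u * Complex.exp (t * u * Complex.I)) := by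
      rw [Complex.mul_conj, Complex.normSq_eq_norm_sq]
    rw [Complex.ofReal_mul, h1, map_sum, Finset.sum_mul_sum, Finset.mul_sum]
    refine Finset.sum_congr rfl fun u _ => ?_
    rw [Finset.mul_sum]
    refine Finset.sum_congr rfl fun u' _ => ?_
    rw [map_mul, ← Complex.exp_conj]
    have h2 : (starRingEnd ℂ) (t * u' * Complex.I) = -(t * u' * Complex.I) := by
      simp
    have h3 : Complex.exp (t * (u - u' : ℝ) * Complex.I) =
        Complex.exp (t * u * Complex.I) * Complex.exp (-(t * u' * Complex.I)) := by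
      rw [← Complex.exp_add]; congr 1; push_cast; ring
    rw [h2, h3]
    ring
  have hint1 : ∀ v : ℝ, Integrable (fun t : ℝ => ((1 / (1 + (lam * t) ^ 2) : ℝ) : ℂ) *
      Complex.exp (t * v * Complex.I)) := by
    intro v
    have h := (lorentz_integrable hl).ofReal (𝕜 := ℂ)
    refine h.mul_bdd (c := 1) ?_ ?_
    · exact Continuous.aestronglyMeasurable (by fun_prop)
    · refine Filter.Eventually.of_forall fun t => ?_
      have : (t * v * Complex.I : ℂ) = ((t * v : ℝ) : ℂ) * Complex.I := by push_cast; ring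
      rw [this, Complex.norm_exp_ofReal_mul_I]
  have hintc : Integrable (fun t : ℝ => ((1 / (1 + (lam * t) ^ 2) *
      ‖∑ u ∈ R, ε u * Complex.exp (t * u * Complex.I)‖ ^ 2 : ℝ) : ℂ)) := by
    simp only [hexpand]
    refine integrable_finsetSum _ fun u _ => integrable_finsetSum _ fun u' _ => ?_
    exact (hint1 (u - u')).const_mul _
  refine ⟨?_, ?_⟩
  · exact hintc.re
  · have h1 : ((∫ t : ℝ, 1 / (1 + (lam * t) ^ 2) *
        ‖∑ u ∈ R, ε u * Complex.exp (t * u * Complex.I)‖ ^ 2 : ℝ) : ℂ) =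
        ∑ u ∈ R, ∑ u' ∈ R, (ε u * (starRingEnd ℂ) (ε u')) *
          ∫ t : ℝ, (((1 / (1 + (lam * t) ^ 2) : ℝ) : ℂ) * Complex.exp (t * (u - u' : ℝ) * Complex.I)) := by
      rw [← integral_complex_ofReal]
      simp only [hexpand]
      rw [integral_finsetSum _ (fun u _ => integrable_finsetSum _ fun u' _ => (hint1 (u - u')).const_mul _)]
      refine Finset.sum_congr rfl fun u _ => ?_
      rw [integral_finsetSum _ (fun u' _ => (hint1 (u - u')).const_mul _)]
      refine Finset.sum_congr rfl fun u' _ => ?_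
      rw [integral_const_mul]
    have h2 : ∫ t : ℝ, 1 / (1 + (lam * t) ^ 2) *
        ‖∑ u ∈ R, ε u * Complex.exp (t * u * Complex.I)‖ ^ 2 ≤
        ‖((∫ t : ℝ, 1 / (1 + (lam * t) ^ 2) *
        ‖∑ u ∈ R, ε u * Complex.exp (t * u * Complex.I)‖ ^ 2 : ℝ) : ℂ)‖ := by
      rw [Complex.norm_real]; exact le_abs_self _
    refine h2.trans ?_
    rw [h1]
    calc _ ≤ ∑ u ∈ R, ∑ u' ∈ R, Real.pi / lam * Real.exp (-(|u - u'| / lam)) := by
          refine (norm_sum_le _ _).trans (Finset.sum_le_sum fun u _ => ?_)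
          refine (norm_sum_le _ _).trans (Finset.sum_le_sum fun u' _ => ?_)
          rw [norm_mul, norm_fourier_lorentz hl, norm_mul, hε, RCLike.norm_conj, hε]
          simp
      _ ≤ ∑ u ∈ R, Real.pi / lam * C0 := by
          refine Finset.sum_le_sum fun u _ => ?_
          rw [← Finset.mul_sum]
          exact mul_le_mul_of_nonneg_left (packing hl R hR u) (by positivity)
      _ = Real.pi / lam * R.card * C0 := by
          rw [Finset.sum_const, nsmul_eq_mul]; ring

lemma exists_phase (z : ℂ) : ∃ ε : ℂ, ‖ε‖ = 1 ∧ ε * z = ‖z‖ := by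
  by_cases hz : z = 0
  · exact ⟨1, by simp, by simp [hz]⟩
  · refine ⟨(starRingEnd ℂ) z / ‖z‖, ?_, ?_⟩
    · have : ‖z‖ ≠ 0 := by simpa using hz
      rw [norm_div, RCLike.norm_conj, Complex.norm_real, norm_norm, div_self this]
    · have : (‖z‖ : ℂ) ≠ 0 := by simpa using hz
      rw [div_mul_eq_mul_div, div_eq_iff this, mul_comm, Complex.mul_conj, Complex.normSq_eq_norm_sq]
      push_cast; ring

theorem duality : Duality := by
  obtain ⟨C1, hC1, h1⟩ := exists_C1
  refine ⟨Real.sqrt (C1 * (Real.pi * C0)), fun lam hl hl2 g hg B hB hgb R hR => ?_⟩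
  obtain ⟨hI1, hI1b⟩ := h1 lam hl hl2
  have hll : 0 < Real.log (1 / lam) := Real.log_pos (by rw [lt_div_iff₀ hl]; linarith)
  have hC0 := C0_pos
  choose ph hph1 hph2 using exists_phase
  -- integrability of g
  have hlog : ∀ t : ℝ, 0 ≤ Real.log (2 + |t|) := fun t => Real.log_nonneg (by linarith [abs_nonneg t])
  have hlor := lorentz_integrable hl
  have hbig : Integrable (fun t : ℝ => B / (1 + (lam * t) ^ 2) * Real.log (2 + |t|)) := by
    refine ((hlor.add hI1).const_mul B).mono' ?_ (Filter.Eventually.of_forall fun t => ?_)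
    · apply Measurable.aestronglyMeasurable
      fun_prop
    · rw [Real.norm_of_nonneg (mul_nonneg (by positivity) (hlog t))]
      simp only [Pi.add_apply]
      have hp : (0 : ℝ) < 1 + (lam * t) ^ 2 := by positivity
      have : B / (1 + (lam * t) ^ 2) * Real.log (2 + |t|) =
          B * (Real.log (2 + |t|) / (1 + (lam * t) ^ 2)) := by ring
      rw [this]
      refine mul_le_mul_of_nonneg_left ?_ hB
      rw [← add_div]
      refine div_le_div_of_nonneg_right ?_ hp.le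
      nlinarith [sq_nonneg (Real.log (2 + |t|) - 1/2)]
  have hgi : Integrable g :=
    hbig.mono' hg.aestronglyMeasurable (Filter.Eventually.of_forall hgb)
  have hgi' : ∀ u : ℝ, Integrable (fun t : ℝ => g t * Complex.exp (t * u * Complex.I)) := by
    intro u
    refine hgi.mul_bdd (c := 1) ?_ ?_
    · exact Continuous.aestronglyMeasurable (by fun_prop)
    · refine Filter.Eventually.of_forall fun t => ?_
      have : (t * u * Complex.I : ℂ) = ((t * u : ℝ) : ℂ) * Complex.I := by push_cast; ring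
      rw [this, Complex.norm_exp_ofReal_mul_I]
  set ε : ℝ → ℂ := fun u => ph (∫ t : ℝ, g t * Complex.exp (t * u * Complex.I)) with hε
  obtain ⟨hI2, hI2b⟩ := second_moment hl R hR ε (fun u => hph1 _)
  set S : ℝ → ℂ := fun t => ∑ u ∈ R, ε u * Complex.exp (t * u * Complex.I) with hS
  have hsum : ((∑ u ∈ R, ‖∫ t : ℝ, g t * Complex.exp (t * u * Complex.I)‖ : ℝ) : ℂ) =
      ∫ t : ℝ, g t * S t := by
    push_cast
    have : ∀ t : ℝ, g t * S t = ∑ u ∈ R, ε u * (g t * Complex.exp (t * u * Complex.I)) := by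
      intro t
      rw [hS]; simp only [Finset.mul_sum]
      refine Finset.sum_congr rfl fun u _ => by ring
    simp only [this]
    rw [integral_finsetSum _ (fun u _ => (hgi' u).const_mul _)]
    refine Finset.sum_congr rfl fun u _ => ?_
    rw [integral_const_mul, hε]
    exact (hph2 _).symm
  -- trivial cases
  set X0 : ℝ := B ^ 2 * (C1 * Real.log (1 / lam) ^ 2 / lam) with hX0
  set Y0 : ℝ := Real.pi / lam * R.card * C0 with hY0
  rcases Nat.eq_zero_or_pos R.card with hR0 | hR0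
  · rw [Finset.card_eq_zero.1 hR0]; simp
  rcases hB.eq_or_lt with hB0 | hB0
  · have : ∀ t, g t = 0 := by
      intro t
      have := hgb t
      rw [← hB0] at this
      simpa using this
    simp [this, ← hB0]
  have hX0p : 0 < X0 := by positivity
  have hY0p : 0 < Y0 := by
    have : (0 : ℝ) < R.card := by exact_mod_cast hR0
    positivity
  have hamgm : ∀ a : ℝ, 0 < a → ∑ u ∈ R, ‖∫ t : ℝ, g t * Complex.exp (t * u * Complex.I)‖ ≤
      a / 2 * X0 + 1 / (2 * a) * Y0 := by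
    intro a ha
    have e1 : ∑ u ∈ R, ‖∫ t : ℝ, g t * Complex.exp (t * u * Complex.I)‖ ≤ ∫ t : ℝ, ‖g t * S t‖ := by
      have h2 : ∑ u ∈ R, ‖∫ t : ℝ, g t * Complex.exp (t * u * Complex.I)‖ ≤
        ‖((∑ u ∈ R, ‖∫ t : ℝ, g t * Complex.exp (t * u * Complex.I)‖ : ℝ) : ℂ)‖ := by
        rw [Complex.norm_real]; exact le_abs_self _
      rw [hsum] at h2
      exact h2.trans (norm_integral_le_integral_norm _)
    refine e1.trans ?_
    have hi : Integrable (fun t : ℝ => (a / 2 * B ^ 2) * (Real.log (2 + |t|) ^ 2 / (1 + (lam * t) ^ 2)) +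
        1 / (2 * a) * (1 / (1 + (lam * t) ^ 2) * ‖S t‖ ^ 2)) :=
      (hI1.const_mul _).add (hI2.const_mul _)
    calc ∫ t : ℝ, ‖g t * S t‖ ≤ ∫ t : ℝ, ((a / 2 * B ^ 2) * (Real.log (2 + |t|) ^ 2 / (1 + (lam * t) ^ 2)) +
        1 / (2 * a) * (1 / (1 + (lam * t) ^ 2) * ‖S t‖ ^ 2)) := by
          refine integral_mono_of_nonneg (Filter.Eventually.of_forall fun t => norm_nonneg _) hi
            (Filter.Eventually.of_forall fun t => ?_)
          simp only
          rw [norm_mul]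
          have hp : (0 : ℝ) < 1 + (lam * t) ^ 2 := by positivity
          have b1 : ‖g t‖ * ‖S t‖ ≤ B / (1 + (lam * t) ^ 2) * Real.log (2 + |t|) * ‖S t‖ :=
            mul_le_mul_of_nonneg_right (hgb t) (norm_nonneg _)
          refine b1.trans ?_
          have e : B / (1 + (lam * t) ^ 2) * Real.log (2 + |t|) * ‖S t‖ =
            (B * Real.log (2 + |t|) * ‖S t‖) / (1 + (lam * t) ^ 2) := by ring
          have e' : (a / 2 * B ^ 2) * (Real.log (2 + |t|) ^ 2 / (1 + (lam * t) ^ 2)) +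
            1 / (2 * a) * (1 / (1 + (lam * t) ^ 2) * ‖S t‖ ^ 2) =
            (a / 2 * (B * Real.log (2 + |t|)) ^ 2 + 1 / (2 * a) * ‖S t‖ ^ 2) / (1 + (lam * t) ^ 2) := by
            ring
          rw [e, e']
          refine div_le_div_of_nonneg_right ?_ hp.le
          have key : a / 2 * (B * Real.log (2 + |t|)) ^ 2 + 1 / (2 * a) * ‖S t‖ ^ 2 -
              B * Real.log (2 + |t|) * ‖S t‖ = 1 / (2 * a) * (a * (B * Real.log (2 + |t|)) - ‖S t‖) ^ 2 := by
            field_simp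
            ring
          have : 0 ≤ 1 / (2 * a) * (a * (B * Real.log (2 + |t|)) - ‖S t‖) ^ 2 := by positivity
          linarith
      _ = (a / 2 * B ^ 2) * (∫ t : ℝ, Real.log (2 + |t|) ^ 2 / (1 + (lam * t) ^ 2)) +
          1 / (2 * a) * ∫ t : ℝ, 1 / (1 + (lam * t) ^ 2) * ‖S t‖ ^ 2 := by
          rw [integral_add (hI1.const_mul _) (hI2.const_mul _), integral_const_mul, integral_const_mul]
      _ ≤ (a / 2 * B ^ 2) * (C1 * Real.log (1 / lam) ^ 2 / lam) + 1 / (2 * a) * Y0 := by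
          gcongr
      _ = a / 2 * X0 + 1 / (2 * a) * Y0 := by rw [hX0]; ring
  have hfin := hamgm (Real.sqrt (Y0 / X0)) (Real.sqrt_pos.2 (div_pos hY0p hX0p))
  refine hfin.trans (le_of_eq ?_)
  have hsX : Real.sqrt X0 = B * Real.log (1 / lam) * Real.sqrt (C1 / lam) := by
    have : X0 = (B * Real.log (1 / lam)) ^ 2 * (C1 / lam) := by rw [hX0]; ring
    rw [this, Real.sqrt_mul (sq_nonneg _), Real.sqrt_sq (by positivity)]
  have hsY : Real.sqrt Y0 = Real.sqrt (Real.pi * C0 / lam) * Real.sqrt R.card := by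
    have : Y0 = (Real.pi * C0 / lam) * R.card := by rw [hY0]; ring
    rw [this, Real.sqrt_mul (by positivity)]
  have hdiv : Real.sqrt (Y0 / X0) = Real.sqrt Y0 / Real.sqrt X0 := Real.sqrt_div hY0p.le _
  have hsXp : 0 < Real.sqrt X0 := Real.sqrt_pos.2 hX0p
  have hsYp : 0 < Real.sqrt Y0 := Real.sqrt_pos.2 hY0p
  have hX2 : X0 = Real.sqrt X0 * Real.sqrt X0 := (Real.mul_self_sqrt hX0p.le).symm
  have hY2 : Y0 = Real.sqrt Y0 * Real.sqrt Y0 := (Real.mul_self_sqrt hY0p.le).symm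
  have hval : Real.sqrt (Y0 / X0) / 2 * X0 + 1 / (2 * Real.sqrt (Y0 / X0)) * Y0 =
      Real.sqrt X0 * Real.sqrt Y0 := by
    rw [hdiv]
    generalize hx : Real.sqrt X0 = x at *
    generalize hy : Real.sqrt Y0 = y at *
    rw [hX2, hY2]
    field_simp
    ring
  rw [hval, hsX, hsY]
  have hl2' : Real.sqrt (C1 / lam) * Real.sqrt (Real.pi * C0 / lam) =
      Real.sqrt (C1 * (Real.pi * C0)) / lam := by
    rw [← Real.sqrt_mul (by positivity)]
    have : C1 / lam * (Real.pi * C0 / lam) = (C1 * (Real.pi * C0)) / lam ^ 2 := by ring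
    rw [this, Real.sqrt_div (by positivity), Real.sqrt_sq hl.le]
  calc B * Real.log (1 / lam) * Real.sqrt (C1 / lam) * (Real.sqrt (Real.pi * C0 / lam) * Real.sqrt R.card)
      = B * Real.log (1 / lam) * (Real.sqrt (C1 / lam) * Real.sqrt (Real.pi * C0 / lam)) * Real.sqrt R.card := by
        ring
    _ = _ := by rw [hl2']; ring

end Pool.Agent.Helper52.QRH
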