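import Pool.Agent.Helper10.QRH.StA

/-! Project QRH, module A4: explicit formula with the triangle kernel. -/

set_option autoImplicit false
open Filter Topology MeasureTheory

namespace Pool.Agent.Helper52.QRH

open Pool.Agent.Helper10.QRH

namespace Expl

lemma log_bound (x : ℝ) : Real.log (2 + |x|) ≤ 24 * (1 + x ^ 2) ^ (1/8 : ℝ) := by
  have h3 : 2 + |x| ≤ 3 * (1 + x ^ 2) := by
    have := sq_nonneg (|x| - 1)
    have h4 : |x| ^ 2 = x ^ 2 := sq_abs x
    nlinarith [abs_nonneg x]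
  have h5 := Real.log_le_rpow_div (x := 2 + |x|) (by positivity) (ε := 1/8) (by norm_num)
  have h6 : (2 + |x|) ^ (1/8 : ℝ) ≤ (3 * (1 + x ^ 2)) ^ (1/8 : ℝ) :=
    Real.rpow_le_rpow (by positivity) h3 (by norm_num)
  rw [Real.mul_rpow (by norm_num) (by positivity)] at h6
  have h7 : (3 : ℝ) ^ (1/8 : ℝ) ≤ 3 := by
    calc (3 : ℝ) ^ (1/8 : ℝ) ≤ 3 ^ (1 : ℝ) := Real.rpow_le_rpow_of_exponent_le (by norm_num) (by norm_num)
      _ = 3 := Real.rpow_one 3
  have h8 : (0 : ℝ) < (1 + x ^ 2) ^ (1/8 : ℝ) := by positivity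
  nlinarith

lemma decay {lam : ℝ} (hl : 0 < lam) (hl1 : lam ≤ 1) (t : ℝ) :
    Real.log (2 + |t|) / (1 + (lam * t) ^ 2) ≤ 24 / lam ^ 2 * (1 + ‖t‖ ^ 2) ^ (-(7/4 : ℝ) / 2) := by
  have hp : (0 : ℝ) < 1 + t ^ 2 := by positivity
  have h1 : lam ^ 2 * (1 + t ^ 2) ≤ 1 + (lam * t) ^ 2 := by
    have : lam ^ 2 ≤ 1 := by nlinarith
    nlinarith
  have h2 := log_bound t
  have h0 : 0 ≤ Real.log (2 + |t|) := Real.log_nonneg (by linarith [abs_nonneg t])
  rw [Real.norm_eq_abs, sq_abs]
  calc Real.log (2 + |t|) / (1 + (lam * t) ^ 2) ≤ Real.log (2 + |t|) / (lam ^ 2 * (1 + t ^ 2)) :=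
        div_le_div_of_nonneg_left h0 (by positivity) h1
    _ ≤ (24 * (1 + t ^ 2) ^ (1/8 : ℝ)) / (lam ^ 2 * (1 + t ^ 2)) := by gcongr
    _ = 24 / lam ^ 2 * ((1 + t ^ 2) ^ (1/8 : ℝ) / (1 + t ^ 2) ^ (1 : ℝ)) := by
        rw [Real.rpow_one]; field_simp
    _ = 24 / lam ^ 2 * (1 + t ^ 2) ^ (-(7/4 : ℝ) / 2) := by
        rw [← Real.rpow_sub hp]; norm_num

lemma decay_integrable : Integrable (fun t : ℝ => ((1 : ℝ) + ‖t‖ ^ 2) ^ (-(7/4 : ℝ) / 2)) :=
  integrable_rpow_neg_one_add_norm_sq (by simp; norm_num)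

lemma tri_zero {lam v : ℝ} (hl : 0 < lam) (h : lam ≤ |v|) : tri lam v = 0 := by
  unfold tri
  have : 1 - |v| / lam ≤ 0 := by
    rw [sub_nonpos, le_div_iff₀ hl]; linarith
  rw [max_eq_left this]; simp

lemma tri_neg (lam v : ℝ) : tri lam (-v) = tri lam v := by
  unfold tri; rw [abs_neg]

lemma integral3 {f g h : ℝ → ℂ} (hf : Integrable f) (hg : Integrable g) (hh : Integrable h) :
    ∫ t : ℝ, (f t + g t - h t) = (∫ t, f t) + (∫ t, g t) - ∫ t, h t := by
  have h1 : ∫ t : ℝ, (f t + g t - h t) = ∫ t : ℝ, ((f + g) t - h t) := rfl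
  rw [h1, integral_sub (hf.add hg) hh]
  have h2 : ∫ t : ℝ, (f + g) t = ∫ t : ℝ, (f t + g t) := rfl
  rw [h2, integral_add hf hg]

lemma two_pi_cancel (z : ℂ) : 2 * (Real.pi : ℂ) * (1 / (2 * (Real.pi : ℂ)) * z) = z := by
  have hpc : (Real.pi : ℂ) ≠ 0 := by exact_mod_cast Real.pi_pos.ne'
  field_simp

lemma line_re (c t : ℝ) : ((c : ℂ) + t * Complex.I).re = c := by simp
lemma line_im (c t : ℝ) : ((c : ℂ) + t * Complex.I).im = t := by simp

section
variable (hK : KFacts) {lam : ℝ} (hl : 0 < lam) (hl1 : lam ≤ 1)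
include hK hl

lemma KK_cont (c : ℝ) : Continuous (fun t : ℝ => KK lam (c + t * Complex.I)) := by
  have := (hK.diff lam hl).continuous
  exact this.comp (by fun_prop)

include hl1

lemma KK_integrable (c : ℝ) (h0 : 0 ≤ c) (h2 : c ≤ 2) :
    Integrable (fun t : ℝ => KK lam (c + t * Complex.I)) := by
  obtain ⟨C, hC⟩ := hK.bound
  have h := (integrable_inv_one_add_sq.comp_mul_left' hl.ne').const_mul C
  refine h.mono' (KK_cont hK hl c).aestronglyMeasurable (Filter.Eventually.of_forall fun t => ?_)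
  have := hC lam hl hl1 (c + t * Complex.I) (by simpa using h0) (by simpa using h2)
  rwa [line_im, div_eq_mul_inv] at this

omit hK hl hl1 in
lemma norm_exp_line (c t u : ℝ) : ‖Complex.exp ((c + t * Complex.I) * u)‖ = Real.exp (c * u) := by
  rw [Complex.norm_exp]
  congr 1
  simp

lemma A_integrable (c : ℝ) (h0 : 0 ≤ c) (h2 : c ≤ 2) (u : ℝ) :
    Integrable (fun t : ℝ => KK lam (c + t * Complex.I) * Complex.exp ((c + t * Complex.I) * u)) := by
  refine (KK_integrable hK hl hl1 c h0 h2).mul_bdd (c := Real.exp (c * u)) ?_ ?_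
  · exact Continuous.aestronglyMeasurable (by fun_prop)
  · exact Filter.Eventually.of_forall fun t => (norm_exp_line c t u).le

/-- the polar terms -/
lemma polar (u : ℝ) (hu : 1 ≤ u) (ρ : ℂ) (hρ : ρ.re < 2) :
    Integrable (fun t : ℝ => KK lam ((2 : ℝ) + t * Complex.I) * (1 / (((2 : ℝ) + t * Complex.I) - ρ)) *
      Complex.exp (((2 : ℝ) + t * Complex.I) * u)) ∧
    ∫ t : ℝ, KK lam ((2 : ℝ) + t * Complex.I) * (1 / (((2 : ℝ) + t * Complex.I) - ρ)) *
      Complex.exp (((2 : ℝ) + t * Complex.I) * u) = 2 * Real.pi * (Complex.exp (ρ * u) * KK lam ρ) := by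
  set A : ℝ → ℂ := fun t => KK lam ((2 : ℝ) + t * Complex.I) * Complex.exp (((2 : ℝ) + t * Complex.I) * u)
    with hA
  have hAi : Integrable A := A_integrable hK hl hl1 2 (by norm_num) le_rfl u
  have hr : (ρ - 2).re < 0 := by simp; linarith
  have hBi : Integrable (fun v : ℝ => Complex.exp ((ρ - 2) * v)) (volume.restrict (Set.Ioi 0)) :=
    integrableOn_exp_mul_complex_Ioi hr 0
  have hne : ∀ t : ℝ, ((2 : ℝ) + t * Complex.I : ℂ) - ρ ≠ 0 := by
    intro t h
    have := congrArg Complex.re h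
    simp at this
    linarith
  have hinv : ∀ t : ℝ, (1 / ((((2 : ℝ) : ℂ) + t * Complex.I) - ρ)) =
      ∫ v in Set.Ioi (0 : ℝ), Complex.exp ((ρ - ((2 : ℝ) + t * Complex.I)) * v) := by
    intro t
    have hr' : (ρ - ((2 : ℝ) + t * Complex.I)).re < 0 := by simp; linarith
    rw [integral_exp_mul_complex_Ioi hr' 0]
    have h1 := hne t
    have h2 : ρ - (((2 : ℝ) : ℂ) + t * Complex.I) ≠ 0 := fun h => h1 (by rw [← neg_sub, h, neg_zero])
    simp only [Complex.ofReal_zero, mul_zero, Complex.exp_zero]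
    rw [div_eq_div_iff h1 h2]; ring
  -- the function on the product
  set f : ℝ → ℝ → ℂ := fun t v => A t * Complex.exp ((ρ - ((2 : ℝ) + t * Complex.I)) * v) with hf
  have hfi : Integrable (Function.uncurry f) (volume.prod (volume.restrict (Set.Ioi 0))) := by
    have h1 := hAi.mul_prod hBi
    have h2 : Integrable (fun z : ℝ × ℝ => (A z.1 * Complex.exp ((ρ - 2) * z.2)) *
        Complex.exp (((-(z.1 * z.2) : ℝ) : ℂ) * Complex.I)) (volume.prod (volume.restrict (Set.Ioi 0))) := by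
      refine h1.mul_bdd (c := 1) ?_ ?_
      · exact Continuous.aestronglyMeasurable (by fun_prop)
      · exact Filter.Eventually.of_forall fun z => by rw [Complex.norm_exp_ofReal_mul_I]
    refine h2.congr (Filter.Eventually.of_forall fun z => ?_)
    simp only [Function.uncurry, hf]
    rw [mul_assoc, ← Complex.exp_add]
    congr 2
    push_cast; ring
  have hcomb : ∀ t : ℝ, KK lam ((2 : ℝ) + t * Complex.I) * (1 / (((2 : ℝ) + t * Complex.I) - ρ)) *
      Complex.exp (((2 : ℝ) + t * Complex.I) * u) = ∫ v in Set.Ioi (0 : ℝ), f t v := by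
    intro t
    rw [hinv t, hf]
    simp only
    rw [integral_const_mul, hA]
    ring
  simp only [hcomb]
  refine ⟨hfi.integral_prod_left, ?_⟩
  rw [integral_integral_swap hfi]
  have hin : ∀ v : ℝ, ∫ t : ℝ, f t v = Complex.exp (ρ * v) * (2 * Real.pi * (tri lam (u - v) : ℂ)) := by
    intro v
    rw [hK.inv lam 2 (u - v) hl]
    have : ∀ t : ℝ, f t v = Complex.exp (ρ * v) * (KK lam ((2 : ℝ) + t * Complex.I) *
        Complex.exp (((2 : ℝ) + t * Complex.I) * ((u - v : ℝ) : ℂ))) := by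
      intro t
      simp only [hf, hA]
      rw [mul_assoc, ← Complex.exp_add, mul_left_comm, ← Complex.exp_add]
      congr 2
      push_cast; ring
    simp only [this]
    rw [integral_const_mul, two_pi_cancel]
  simp only [hin]
  have hset : ∫ v in Set.Ioi (0 : ℝ), Complex.exp (ρ * v) * (2 * Real.pi * (tri lam (u - v) : ℂ)) =
      ∫ v : ℝ, Complex.exp (ρ * v) * (2 * Real.pi * (tri lam (u - v) : ℂ)) := by
    refine setIntegral_eq_integral_of_forall_compl_eq_zero fun v hv => ?_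
    simp only [Set.mem_Ioi, not_lt] at hv
    rw [tri_zero hl (by rw [abs_of_nonneg (by linarith)]; linarith)]
    simp
  rw [hset]
  have hsub := integral_sub_left_eq_self
    (fun w : ℝ => Complex.exp (ρ * ((u - w : ℝ) : ℂ)) * (2 * Real.pi * (tri lam w : ℂ))) volume u
  simp only [sub_sub_cancel] at hsub
  rw [hsub]
  unfold KK
  rw [← integral_const_mul, ← integral_const_mul]
  congr 1
  ext w
  have : Complex.exp (ρ * ((u - w : ℝ) : ℂ)) = Complex.exp (ρ * u) * Complex.exp (-ρ * w) := by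
    rw [← Complex.exp_add]; congr 1; push_cast; ring
  rw [this]
  ring

lemma polar_sum (u : ℝ) (hu : 1 ≤ u) (M : Multiset ℂ) : (∀ ρ ∈ M, ρ.re < 2) →
    Integrable (fun t : ℝ => KK lam ((2 : ℝ) + t * Complex.I) *
      (M.map (fun ρ => 1 / (((2 : ℝ) + t * Complex.I) - ρ))).sum *
      Complex.exp (((2 : ℝ) + t * Complex.I) * u)) ∧
    ∫ t : ℝ, KK lam ((2 : ℝ) + t * Complex.I) * (M.map (fun ρ => 1 / (((2 : ℝ) + t * Complex.I) - ρ))).sum *
      Complex.exp (((2 : ℝ) + t * Complex.I) * u) =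
      2 * Real.pi * (M.map (fun ρ => Complex.exp (ρ * u) * KK lam ρ)).sum := by
  refine Multiset.induction_on M ?_ ?_
  · intro _
    simp
  · intro a s ih hs
    obtain ⟨i1, e1⟩ := ih (fun ρ hρ => hs ρ (Multiset.mem_cons_of_mem hρ))
    obtain ⟨i2, e2⟩ := polar hK hl hl1 u hu a (hs a (Multiset.mem_cons_self a s))
    have : ∀ t : ℝ, KK lam ((2 : ℝ) + t * Complex.I) *
      ((a ::ₘ s).map (fun ρ => 1 / (((2 : ℝ) + t * Complex.I) - ρ))).sum *
      Complex.exp (((2 : ℝ) + t * Complex.I) * u) =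
      KK lam ((2 : ℝ) + t * Complex.I) * (1 / (((2 : ℝ) + t * Complex.I) - a)) *
      Complex.exp (((2 : ℝ) + t * Complex.I) * u) +
      KK lam ((2 : ℝ) + t * Complex.I) * (s.map (fun ρ => 1 / (((2 : ℝ) + t * Complex.I) - ρ))).sum *
      Complex.exp (((2 : ℝ) + t * Complex.I) * u) := by
      intro t
      rw [Multiset.map_cons, Multiset.sum_cons]
      ring
    simp only [this]
    refine ⟨i2.add i1, ?_⟩
    rw [integral_add i2 i1, e1, e2, Multiset.map_cons, Multiset.sum_cons]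
    ring

/-- the Dirichlet series term -/
lemma series (u : ℝ) :
    ∫ t : ℝ, KK lam ((2 : ℝ) + t * Complex.I) *
      LSeries (fun n => (ArithmeticFunction.vonMangoldt n : ℂ)) ((2 : ℝ) + t * Complex.I) *
      Complex.exp (((2 : ℝ) + t * Complex.I) * u) =
      2 * Real.pi * ((∑' n : ℕ, ArithmeticFunction.vonMangoldt n * tri lam (u - Real.log n) : ℝ) : ℂ) := by
  set F : ℕ → ℝ → ℂ := fun n t => KK lam ((2 : ℝ) + t * Complex.I) *
      LSeries.term (fun n => (ArithmeticFunction.vonMangoldt n : ℂ)) ((2 : ℝ) + t * Complex.I) n *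
      Complex.exp (((2 : ℝ) + t * Complex.I) * u) with hF
  have hFe : ∀ n t, F n t = (ArithmeticFunction.vonMangoldt n : ℂ) * (KK lam ((2 : ℝ) + t * Complex.I) *
      Complex.exp (((2 : ℝ) + t * Complex.I) * ((u - Real.log n : ℝ) : ℂ))) := by
    intro n t
    rcases Nat.eq_zero_or_pos n with rfl | hn
    · simp [hF]
    · simp only [hF]
      rw [LSeries.term_of_ne_zero hn.ne']
      have hnc : (n : ℂ) ≠ 0 := by exact_mod_cast hn.ne'
      rw [Complex.cpow_def_of_ne_zero hnc, div_eq_mul_inv, ← Complex.exp_neg]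
      have h2 : Complex.exp (((2 : ℝ) + t * Complex.I) * ((u - Real.log n : ℝ) : ℂ)) =
        Complex.exp (-(Complex.log n * ((2 : ℝ) + t * Complex.I))) *
          Complex.exp (((2 : ℝ) + t * Complex.I) * u) := by
        rw [← Complex.exp_add]
        congr 1
        rw [← Complex.natCast_log]
        push_cast
        ring
      rw [h2]
      ring
  have hFi : ∀ n, Integrable (F n) := by
    intro n
    have := (A_integrable hK hl hl1 2 (by norm_num) le_rfl (u - Real.log n)).const_mul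
      (ArithmeticFunction.vonMangoldt n : ℂ)
    refine this.congr (Filter.Eventually.of_forall fun t => ?_)
    exact (hFe n t).symm
  have hsum : Summable (fun n => ∫ t, ‖F n t‖) := by
    have h1 : LSeriesSummable (fun n => (ArithmeticFunction.vonMangoldt n : ℂ)) ((2 : ℝ) : ℂ) :=
      ArithmeticFunction.LSeriesSummable_vonMangoldt (by simp)
    have h2 := (h1.norm).mul_right (Real.exp (2 * u) * ∫ t : ℝ, ‖KK lam ((2 : ℝ) + t * Complex.I)‖)
    refine h2.congr fun n => ?_
    have : ∀ t : ℝ, ‖F n t‖ = (‖LSeries.term (fun n => (ArithmeticFunction.vonMangoldt n : ℂ)) ((2 : ℝ) : ℂ) n‖ *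
        Real.exp (2 * u)) * ‖KK lam ((2 : ℝ) + t * Complex.I)‖ := by
      intro t
      simp only [hF]
      rw [norm_mul, norm_mul, norm_exp_line]
      rw [LSeries.norm_term_eq, LSeries.norm_term_eq, line_re, Complex.ofReal_re]
      ring
    simp only [this]
    rw [integral_const_mul]
    ring
  have hs := hasSum_integral_of_summable_integral_norm hFi hsum
  have e1 : ∫ t : ℝ, ∑' n, F n t = ∫ t : ℝ, KK lam ((2 : ℝ) + t * Complex.I) *
      LSeries (fun n => (ArithmeticFunction.vonMangoldt n : ℂ)) ((2 : ℝ) + t * Complex.I) *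
      Complex.exp (((2 : ℝ) + t * Complex.I) * u) := by
    congr 1
    ext t
    simp only [hF, LSeries]
    rw [tsum_mul_right, tsum_mul_left]
  rw [← e1, ← hs.tsum_eq]
  have e2 : ∀ n : ℕ, ∫ t : ℝ, F n t = 2 * Real.pi *
      ((ArithmeticFunction.vonMangoldt n * tri lam (u - Real.log n) : ℝ) : ℂ) := by
    intro n
    simp only [hFe]
    rw [integral_const_mul]
    have := hK.inv lam 2 (u - Real.log n) hl
    rw [Complex.ofReal_mul, this, mul_left_comm, two_pi_cancel]
  simp only [e2]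
  rw [tsum_mul_left, Complex.ofReal_tsum]

end

end Expl

open Expl in
theorem explicit (hK : KFacts) : Explicit := by
  intro σ₀ σ₁ h0 h01 h1 M G hG lam u hl hl1 hu
  set J : ℂ → ℂ := fun s => KK lam s * G s * Complex.exp (s * u) with hJ
  have hJd : DifferentiableOn ℂ J {s | σ₀ < s.re} := by
    refine ((hK.diff lam hl).differentiableOn.mul hG.diff).mul ?_
    exact (Differentiable.differentiableOn (by fun_prop))
  obtain ⟨CK, hCK⟩ := hK.bound
  obtain ⟨CG, hCG⟩ := hG.bound σ₁ h01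
  set C : ℝ := |CK| * |CG| * Real.exp (2 * u) * (24 / lam ^ 2) with hC
  have hCn : 0 ≤ C := by positivity
  -- bound for J
  have hJb : ∀ s : ℂ, σ₁ ≤ s.re → s.re ≤ 2 → ‖J s‖ ≤ C * (1 + ‖s.im‖ ^ 2) ^ (-(7/4 : ℝ) / 2) := by
    intro s hs1 hs2
    have b1 := hCK lam hl hl1 s (by linarith) hs2
    have b2 := hCG s hs1 hs2
    have hp : (0 : ℝ) < 1 + (lam * s.im) ^ 2 := by positivity
    have hlog : 0 ≤ Real.log (2 + |s.im|) := Real.log_nonneg (by linarith [abs_nonneg s.im])
    have b1' : ‖KK lam s‖ ≤ |CK| / (1 + (lam * s.im) ^ 2) :=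
      b1.trans (div_le_div_of_nonneg_right (le_abs_self _) hp.le)
    have b2' : ‖G s‖ ≤ |CG| * Real.log (2 + |s.im|) :=
      b2.trans (mul_le_mul_of_nonneg_right (le_abs_self _) hlog)
    have b3 : ‖Complex.exp (s * u)‖ ≤ Real.exp (2 * u) := by
      rw [Complex.norm_exp]
      apply Real.exp_le_exp.2
      simp only [Complex.mul_re, Complex.ofReal_re, Complex.ofReal_im, mul_zero, sub_zero]
      nlinarith
    calc ‖J s‖ = ‖KK lam s‖ * ‖G s‖ * ‖Complex.exp (s * u)‖ := by simp only [hJ, norm_mul]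
      _ ≤ (|CK| / (1 + (lam * s.im) ^ 2)) * (|CG| * Real.log (2 + |s.im|)) * Real.exp (2 * u) := by
          gcongr
      _ = |CK| * |CG| * Real.exp (2 * u) * (Real.log (2 + |s.im|) / (1 + (lam * s.im) ^ 2)) := by ring
      _ ≤ |CK| * |CG| * Real.exp (2 * u) * (24 / lam ^ 2 * (1 + ‖s.im‖ ^ 2) ^ (-(7/4 : ℝ) / 2)) := by
          gcongr
          exact decay hl hl1 _
      _ = _ := by rw [hC]; ring
  have hcont : ∀ c : ℝ, σ₁ ≤ c → Continuous (fun t : ℝ => J (c + t * Complex.I)) := by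
    intro c hc
    have h : ContinuousOn J {s | σ₀ < s.re} := hJd.continuousOn
    refine h.comp_continuous (by fun_prop) (fun t => ?_)
    simp only [Set.mem_ofPred_eq, line_re]
    linarith
  have hint : ∀ c : ℝ, σ₁ ≤ c → c ≤ 2 → Integrable (fun t : ℝ => J (c + t * Complex.I)) := by
    intro c hc hc2
    refine (decay_integrable.const_mul C).mono' (hcont c hc).aestronglyMeasurable
      (Filter.Eventually.of_forall fun t => ?_)
    have := hJb (c + t * Complex.I) (by rw [line_re]; exact hc) (by rw [line_re]; exact hc2)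
    rwa [line_im] at this
  -- the shift
  have hshift : ∫ t : ℝ, J ((2 : ℝ) + t * Complex.I) = ∫ t : ℝ, J (σ₁ + t * Complex.I) := by
    have hdec : Tendsto (fun T : ℝ => C * (1 + ‖T‖ ^ 2) ^ (-(7/4 : ℝ) / 2) * |2 - σ₁|) atTop (𝓝 0) := by
      have h1 : Tendsto (fun T : ℝ => 1 + ‖T‖ ^ 2) atTop atTop := by
        have : ∀ T : ℝ, 1 + ‖T‖ ^ 2 = 1 + T ^ 2 := fun T => by rw [Real.norm_eq_abs, sq_abs]
        simp only [this]
        exact tendsto_atTop_add_const_left _ _ (tendsto_pow_atTop (by norm_num))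
      have h2 := (tendsto_rpow_neg_atTop (y := 7/8) (by norm_num)).comp h1
      have h3 := (h2.const_mul C).mul_const |2 - σ₁|
      simp only [mul_zero, zero_mul] at h3
      refine h3.congr fun T => ?_
      simp only [Function.comp]
      norm_num
    have hup : Tendsto (fun T : ℝ => ∫ x : ℝ in σ₁..2, J (x + (T : ℝ) * Complex.I)) atTop (𝓝 0) := by
      refine squeeze_zero_norm (fun T => ?_) hdec
      refine intervalIntegral.norm_integral_le_of_norm_le_const fun x hx => ?_
      rw [Set.uIoc_of_le (by linarith)] at hx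
      have := hJb (x + T * Complex.I) (by rw [line_re]; exact hx.1.le) (by rw [line_re]; exact hx.2)
      rwa [line_im] at this
    have hdown : Tendsto (fun T : ℝ => ∫ x : ℝ in σ₁..2, J (x + ((-T : ℝ) : ℂ) * Complex.I)) atTop (𝓝 0) := by
      refine squeeze_zero_norm (fun T => ?_) hdec
      refine intervalIntegral.norm_integral_le_of_norm_le_const fun x hx => ?_
      rw [Set.uIoc_of_le (by linarith)] at hx
      have := hJb (x + ((-T : ℝ) : ℂ) * Complex.I) (by rw [line_re]; exact hx.1.le) (by rw [line_re]; exact hx.2)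
      rwa [line_im, norm_neg] at this
    have hv2 := intervalIntegral_tendsto_integral (hint 2 (by linarith) le_rfl)
      tendsto_neg_atTop_atBot tendsto_id
    have hv1 := intervalIntegral_tendsto_integral (hint σ₁ le_rfl (by linarith))
      tendsto_neg_atTop_atBot tendsto_id
    have hrect : ∀ T : ℝ, (∫ x : ℝ in σ₁..2, J (x + ((-T : ℝ) : ℂ) * Complex.I)) -
        (∫ x : ℝ in σ₁..2, J (x + (T : ℂ) * Complex.I)) +
        Complex.I * (∫ y : ℝ in (-T)..T, J ((2 : ℝ) + y * Complex.I)) -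
        Complex.I * (∫ y : ℝ in (-T)..T, J (σ₁ + y * Complex.I)) = 0 := by
      intro T
      have := Complex.integral_boundary_rect_eq_zero_of_differentiableOn J
        (σ₁ + ((-T : ℝ) : ℂ) * Complex.I) ((2 : ℝ) + (T : ℂ) * Complex.I) (hJd.mono ?_)
      · simpa only [line_re, line_im, smul_eq_mul] using this
      · intro s hs
        rw [Complex.mem_reProdIm] at hs
        simp only [line_re] at hs
        have h2 := hs.1
        rw [Set.uIcc_of_le (by linarith)] at h2
        simp only [Set.mem_ofPred_eq]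
        linarith [h2.1]
    have hlim := ((hdown.sub hup).add (hv2.const_mul Complex.I)).sub (hv1.const_mul Complex.I)
    simp only [id_eq] at hlim
    have hz : Tendsto (fun T : ℝ => (0 : ℂ)) atTop (𝓝 (0 - 0 + Complex.I * (∫ t : ℝ, J ((2 : ℝ) + t * Complex.I)) -
        Complex.I * ∫ t : ℝ, J (σ₁ + t * Complex.I))) := by
      refine hlim.congr fun T => ?_
      exact hrect T
    have heq := tendsto_nhds_unique tendsto_const_nhds hz
    have hI := Complex.I_ne_zero
    have : Complex.I * (∫ t : ℝ, J ((2 : ℝ) + t * Complex.I)) =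
        Complex.I * ∫ t : ℝ, J (σ₁ + t * Complex.I) := by
      linear_combination -heq
    exact mul_left_cancel₀ hI this
  -- on the line of real part two
  have hmem : ∀ ρ ∈ M, ρ.re < 2 := fun ρ hρ => by linarith [(hG.mem ρ hρ).2]
  obtain ⟨ip, ep⟩ := polar_sum hK hl hl1 u hu M hmem
  obtain ⟨i1, e1⟩ := polar hK hl hl1 u hu 1 (by simp)
  have es := series hK hl hl1 u
  have iJ := hint 2 (by linarith) le_rfl
  have hdecomp : ∀ t : ℝ, KK lam ((2 : ℝ) + t * Complex.I) *
      LSeries (fun n => (ArithmeticFunction.vonMangoldt n : ℂ)) ((2 : ℝ) + t * Complex.I) *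
      Complex.exp (((2 : ℝ) + t * Complex.I) * u) = J ((2 : ℝ) + t * Complex.I) +
      KK lam ((2 : ℝ) + t * Complex.I) * (1 / (((2 : ℝ) + t * Complex.I) - 1)) *
      Complex.exp (((2 : ℝ) + t * Complex.I) * u) -
      KK lam ((2 : ℝ) + t * Complex.I) * (M.map (fun ρ => 1 / (((2 : ℝ) + t * Complex.I) - ρ))).sum *
      Complex.exp (((2 : ℝ) + t * Complex.I) * u) := by
    intro t
    have := hG.eq ((2 : ℝ) + t * Complex.I) (by rw [line_re]; norm_num)
    simp only [hJ]
    rw [this]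
    ring
  simp only [hdecomp] at es
  rw [integral3 iJ i1 ip, ep, e1, hshift] at es
  have hfin : ∫ t : ℝ, J (σ₁ + t * Complex.I) = 2 * Real.pi *
      (((∑' n : ℕ, ArithmeticFunction.vonMangoldt n * tri lam (u - Real.log n) : ℝ) : ℂ)
      - Complex.exp u * KK lam 1 + (M.map (fun ρ => Complex.exp (ρ * u) * KK lam ρ)).sum) := by
    rw [one_mul] at es
    linear_combination es
  have hpc : (Real.pi : ℂ) ≠ 0 := by exact_mod_cast Real.pi_pos.ne'
  rw [show (∫ t : ℝ, KK lam (σ₁ + t * Complex.I) * G (σ₁ + t * Complex.I) *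
        Complex.exp ((σ₁ + t * Complex.I) * u)) = ∫ t : ℝ, J (σ₁ + t * Complex.I) from rfl, hfin,
    ← mul_assoc, one_div, inv_mul_cancel₀ (by simp), one_mul]

end Pool.Agent.Helper52.QRH
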